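import Pool.Agent.Run7.h590.MP57.Tools

/-!
# MP_5766af_al, piece F12 (S_coc) (helper590)
-/

noncomputable section

namespace Pool.Agent.Run7.h590.MP57

open Finset Pool.Agent.Run7.h378

section roots

variable {E : Type} [Field E] [CharZero E]

/-- `n`-th roots in `E[[X]]` -/
theorem ps_root (β : PowerSeries E) (hβ : PowerSeries.constantCoeff β = 1) (n : ℕ) (hn : n ≠ 0) :
    ∃ γ : PowerSeries E, γ ^ n = β ∧ PowerSeries.constantCoeff γ = 1 := by
  have hH : HenselianRing (PowerSeries E) (Ideal.span {PowerSeries.X}) := inferInstance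
  have hmem : ∀ f : PowerSeries E, f ∈ (Ideal.span {PowerSeries.X} : Ideal (PowerSeries E)) ↔
      PowerSeries.constantCoeff f = 0 := fun f => by
    rw [Ideal.mem_span_singleton, PowerSeries.X_dvd_iff]
  obtain ⟨γ, h1, h2⟩ := hH.is_henselian (Polynomial.X ^ n - Polynomial.C β)
    (Polynomial.monic_X_pow_sub_C _ hn) 1 (by
      rw [hmem]
      simp [hβ]) (by
      have : (Polynomial.derivative (Polynomial.X ^ n - Polynomial.C β)).eval 1 =
          ((n : ℕ) : PowerSeries E) := by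
        rw [Polynomial.derivative_sub, Polynomial.derivative_X_pow, Polynomial.derivative_C]
        simp
      rw [this]
      apply IsUnit.map
      have h3 : ((n : ℕ) : PowerSeries E) = PowerSeries.C (n : E) := by simp
      rw [h3]
      apply IsUnit.map
      exact isUnit_iff_ne_zero.2 (by exact_mod_cast hn))
  refine ⟨γ, ?_, ?_⟩
  · have : γ ^ n - β = 0 := by
      simpa [Polynomial.IsRoot] using h1
    exact sub_eq_zero.1 this
  · rw [hmem, map_sub, map_one, sub_eq_zero] at h2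
    exact h2

theorem lau_of_nonneg (h : LaurentSeries E) (hv : (0 : WithTop ℤ) ≤ vH h) :
    ∃ f : PowerSeries E, (HahnSeries.ofPowerSeries ℤ E f) = h ∧
      PowerSeries.constantCoeff f = h.coeff 0 := by
  refine ⟨PowerSeries.mk fun n => h.coeff n, ?_, ?_⟩
  · ext n
    have := PowerSeries.coeff_coe (f := PowerSeries.mk fun n : ℕ => h.coeff (n : ℤ)) n
    rw [this]
    split_ifs with hn
    · exact ((le_vH_iff h 0).1 (by simpa using hv) n hn).symm
    · rw [PowerSeries.coeff_mk]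
      congr 1
      omega
  · simp [← PowerSeries.coeff_zero_eq_constantCoeff_apply]

theorem lau_nonneg (f : PowerSeries E) : (0 : WithTop ℤ) ≤ vH (HahnSeries.ofPowerSeries ℤ E f) ∧
    (HahnSeries.ofPowerSeries ℤ E f).coeff 0 = PowerSeries.constantCoeff f := by
  constructor
  · have : ((0 : ℤ) : WithTop ℤ) ≤ vH (HahnSeries.ofPowerSeries ℤ E f) := by
      rw [le_vH_iff]
      intro m hm
      have := PowerSeries.coeff_coe (f := f) m
      rw [this, if_pos hm]
    simpa using this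
  · have := PowerSeries.coeff_coe (f := f) 0
    rw [this]
    simp

theorem h_root (β : LaurentSeries E) (hv : (0 : WithTop ℤ) ≤ vH β) (h0 : β.coeff 0 = 1) (n : ℕ)
    (hn : n ≠ 0) : ∃ γ : LaurentSeries E, γ ^ n = β ∧ (0 : WithTop ℤ) ≤ vH γ ∧ γ.coeff 0 = 1 := by
  obtain ⟨f, hf, hf0⟩ := lau_of_nonneg β hv
  obtain ⟨γ, h1, h2⟩ := ps_root f (by rw [hf0, h0]) n hn
  obtain ⟨h3, h4⟩ := lau_nonneg γ
  refine ⟨HahnSeries.ofPowerSeries ℤ E γ, ?_, h3, by rw [h4, h2]⟩
  rw [← map_pow, h1, hf]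

theorem h_root_unique (u : LaurentSeries E) (hv : (0 : WithTop ℤ) ≤ vH u) (h0 : u.coeff 0 = 1)
    (n : ℕ) (hn : n ≠ 0) (hu : u ^ n = 1) : u = 1 := by
  have h1 : (∑ i ∈ range n, u ^ i) * (u - 1) = 0 := by
    rw [geom_sum_mul, hu, sub_self]
  rcases mul_eq_zero.1 h1 with h2 | h2
  · exfalso
    have h3 : (∑ i ∈ range n, u ^ i).coeff 0 = n := by
      have hs : (∑ i ∈ range n, u ^ i).coeff 0 = ∑ i ∈ range n, (u ^ i).coeff 0 := by
        exact HahnSeries.coeff_sum ..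
      rw [hs]
      have : ∀ i ∈ range n, (u ^ i).coeff 0 = 1 := by
        intro i _
        have := (coeff_prod_lead (range i) (fun _ => u) (fun _ _ => hv)).2
        simpa [h0] using this
      rw [Finset.sum_congr rfl this]
      simp
    rw [h2] at h3
    simp only [HahnSeries.coeff_zero] at h3
    exact hn (by exact_mod_cast h3.symm)
  · exact sub_eq_zero.1 h2

theorem h_root_eq (u w : LaurentSeries E) (hu : (0 : WithTop ℤ) ≤ vH u) (hu0 : u.coeff 0 = 1)
    (hw : (0 : WithTop ℤ) ≤ vH w) (hw0 : w.coeff 0 = 1)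
    (n : ℕ) (hn : n ≠ 0) (h : u ^ n = w ^ n) : u = w := by
  have hw1 : w ≠ 0 := by
    intro hw1
    rw [hw1] at hw0
    simp at hw0
  have hv : vH w = (0 : WithTop ℤ) := vH_eq w 0 (by simpa using hw) (by rw [hw0]; exact one_ne_zero)
  have hvi : vH w⁻¹ = (0 : WithTop ℤ) := by
    have h1 : vH (w * w⁻¹) = (0 : WithTop ℤ) := by
      rw [mul_inv_cancel₀ hw1, AddValuation.map_one]
    rw [AddValuation.map_mul, hv, zero_add] at h1
    exact h1
  have hwi : w⁻¹.coeff 0 = 1 := by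
    have h1 := coeff_mul_lead w w⁻¹ 0 0 (by simpa using hw) (by rw [hvi]; exact le_refl _)
    rw [mul_inv_cancel₀ hw1, add_zero, hw0, one_mul] at h1
    rw [← h1]; simp
  have h2 := h_root_unique (u * w⁻¹) (by
      rw [AddValuation.map_mul, hvi, add_zero]; exact hu) (by
      have h1 := coeff_mul_lead u w⁻¹ 0 0 (by simpa using hu) (by rw [hvi]; exact le_refl _)
      rw [add_zero] at h1
      rw [h1, hu0, hwi, one_mul]) n hn (by
      rw [mul_pow, h, inv_pow, mul_inv_cancel₀ (pow_ne_zero _ hw1)])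
  calc u = u * w⁻¹ * w := by field_simp
    _ = w := by rw [h2, one_mul]

end roots

section aclmap

theorem acl_hom {K L : Type} [Field K] [Field L] (φ : K →+* L) (S : Set K) (y : K)
    (hy : y ∈ acl S) : φ y ∈ acl (φ '' S) := by
  obtain ⟨p, hp, hpy⟩ := hy
  have hmap : ∀ x : Subfield.closure S, φ x ∈ Subfield.closure (φ '' S) := by
    intro x
    have : φ x ∈ (Subfield.closure S).map φ := ⟨x, x.2, rfl⟩
    rwa [RingHom.map_field_closure] at this
  let ψ : Subfield.closure S →+* Subfield.closure (φ '' S) :=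
    (φ.comp (Subfield.closure S).subtype).codRestrict (Subfield.closure (φ '' S)) hmap
  refine ⟨p.map ψ, ?_, ?_⟩
  · rw [Ne, Polynomial.map_eq_zero_iff ψ.injective]
    exact hp
  · rw [Polynomial.aeval_def, Polynomial.eval₂_map]
    have h1 : (algebraMap (Subfield.closure (φ '' S)) L).comp ψ =
        φ.comp (algebraMap (Subfield.closure S) K) := by
      ext x; rfl
    rw [h1, ← Polynomial.hom_eval₂, ← Polynomial.aeval_def, hpy, map_zero]

theorem acl_root (AF : AclFacts) {K : Type} [Field K] (S : Set K) (y : K) (n : ℕ) (hn : n ≠ 0)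
    (hy : y ^ n ∈ acl S) : y ∈ acl S := by
  apply AF.idem K S
  refine ⟨Polynomial.X ^ n - Polynomial.C ⟨y ^ n, Subfield.subset_closure hy⟩, ?_, ?_⟩
  · exact (Polynomial.monic_X_pow_sub_C _ hn).ne_zero
  · rw [map_sub, map_pow, Polynomial.aeval_X, Polynomial.aeval_C]
    exact sub_self _

end aclmap

section inv

variable {E : Type} [Field E]

theorem vH_inv_lead (a : LaurentSeries E) (n : ℤ) (ha : vH a = (n : WithTop ℤ)) :
    vH a⁻¹ = ((-n : ℤ) : WithTop ℤ) ∧ a⁻¹.coeff (-n) = (a.coeff n)⁻¹ := by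
  have ha0 : a ≠ 0 := by
    rintro rfl
    simp at ha
  have hi0 : a⁻¹ ≠ 0 := inv_ne_zero ha0
  have h1 : vH (a * a⁻¹) = (0 : WithTop ℤ) := by
    rw [mul_inv_cancel₀ ha0, AddValuation.map_one]
  obtain ⟨m, hm⟩ : ∃ m : ℤ, vH a⁻¹ = (m : WithTop ℤ) := by
    have : vH a⁻¹ ≠ ⊤ := by
      rw [Ne, AddValuation.top_iff]; exact hi0
    exact ⟨_, (WithTop.coe_untop _ this).symm⟩
  rw [AddValuation.map_mul, ha, hm] at h1
  have h2 : m = -n := by
    have : ((n + m : ℤ) : WithTop ℤ) = ((0 : ℤ) : WithTop ℤ) := by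
      push_cast; simpa using h1
    have := WithTop.coe_injective this
    omega
  subst h2
  refine ⟨hm, ?_⟩
  have h3 := coeff_mul_lead a a⁻¹ n (-n) ha.ge hm.ge
  rw [mul_inv_cancel₀ ha0, add_neg_cancel] at h3
  have h4 : (1 : LaurentSeries E).coeff 0 = 1 := by simp
  rw [h4] at h3
  exact eq_inv_of_mul_eq_one_right h3.symm

theorem div_lead (a b : LaurentSeries E) (n : ℤ) (ha : vH a = (n : WithTop ℤ))
    (hb : vH b = (n : WithTop ℤ)) :
    vH (a / b) = (0 : WithTop ℤ) ∧ (a / b).coeff 0 = a.coeff n / b.coeff n := by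
  obtain ⟨h1, h2⟩ := vH_inv_lead b n hb
  rw [div_eq_mul_inv]
  constructor
  · rw [AddValuation.map_mul, ha, h1]
    have : ((n + -n : ℤ) : WithTop ℤ) = ((0 : ℤ) : WithTop ℤ) := by rw [add_neg_cancel]
    push_cast at this
    simp
  · have := coeff_mul_lead a b⁻¹ n (-n) ha.ge h1.ge
    rw [add_neg_cancel] at this
    rw [this, h2, div_eq_mul_inv]

end inv

section coc

variable {E : Type} [Field E] [Algebra ℂ E]

theorem σ_iter (R : Res E) (l i : ℕ) (e : E) : (R.σ (l + 1))^[2 * i] e = (R.σ l)^[i] e := by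
  induction i generalizing e with
  | zero => rfl
  | succ i ih =>
    have : 2 * (i + 1) = 2 * i + 1 + 1 := by ring
    rw [this, Function.iterate_succ_apply, Function.iterate_succ_apply, R.σ_sq, ih,
      Function.iterate_succ_apply]

theorem σ_comm (R : Res E) (l i : ℕ) (e : E) :
    R.σ (l + 1) ((R.σ l)^[i] e) = (R.σ l)^[i] (R.σ (l + 1) e) := by
  rw [← σ_iter R l i e, ← σ_iter R l i (R.σ (l + 1) e),
    ← Function.iterate_succ_apply' (⇑(R.σ (l + 1))), ← Function.iterate_succ_apply]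

theorem nm_coeff {ρ : E ≃ₐ[ℂ] E} {τ : LaurentSeries E ≃+* LaurentSeries E} (h : Adm ρ τ)
    (n : ℕ) (a : LaurentSeries E) (ha : vH a = (0 : WithTop ℤ)) :
    vH (Nm τ n a) = (0 : WithTop ℤ) ∧ (Nm τ n a).coeff 0 = ∏ i ∈ range n, ρ^[i] (a.coeff 0) := by
  have h1 := coeff_prod_lead (range n) (fun i => τ^[i] a) (fun i _ => by
    show (0 : WithTop ℤ) ≤ vH (τ^[i] a)
    rw [adm_iter_v h, ha])
  have h2 : (Nm τ n a).coeff 0 = ∏ i ∈ range n, ρ^[i] (a.coeff 0) := by
    have : (Nm τ n a).coeff 0 = ∏ i ∈ range n, (τ^[i] a).coeff 0 := h1.2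
    rw [this]
    refine Finset.prod_congr rfl fun i _ => ?_
    exact adm_iter_res h i a 0 (by rw [ha]; exact le_refl _)
  refine ⟨vH_eq _ 0 h1.1 ?_, h2⟩
  rw [h2]
  refine Finset.prod_ne_zero_iff.2 fun i _ => ?_
  have h3 := vH_coeff_ne a 0 ha
  clear h1 h2
  have : ∀ m : ℕ, ρ^[m] (a.coeff 0) ≠ 0 := by
    intro m
    induction m with
    | zero => exact h3
    | succ m ih =>
      rw [Function.iterate_succ_apply']
      exact (map_ne_zero_iff _ ρ.injective).2 ih
  exact this i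

theorem p_coc : S_coc := by
  intro AF E _ _ R KF eps hE MF P₀ hP₀ l S SF τ P' hPP' hτ τsq τeps τx
  have hc0 : CharZero E := charZero_of_injective_algebraMap (algebraMap ℂ E).injective
  obtain ⟨M, hM⟩ := MF.field P'
  have hmem : ∀ h, h ∈ Mf R eps P' ↔ h ∈ M := fun h => by
    rw [← hM]; rfl
  have hgens : gens R S.P ⊆ gens R P' :=
    Set.union_subset_union_left _ (Set.image_mono hPP')
  have gx' : S.g (eH R.x) ∈ acl (gens R P') := AF.mono _ _ _ hgens S.gx
  have g_mem : ∀ h, h ∈ Mf R eps P' → S.g h ∈ Mf R eps P' := fun h hh =>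
    (MF.map P' P' (R.σ l) S.g subset_rfl S.adm S.comm gx' h).1 hh
  have τ_mem : ∀ h, h ∈ Mf R eps P' → τ h ∈ Mf R eps P' := fun h hh =>
    (MF.map P' P' (R.σ (l + 1)) τ subset_rfl hτ (fun h => (τeps h)) τx h).1 hh
  have git_mem : ∀ m h, h ∈ Mf R eps P' → S.g^[m] h ∈ Mf R eps P' := by
    intro m h hh
    induction m with
    | zero => exact hh
    | succ m ih => rw [Function.iterate_succ_apply']; exact g_mem _ ih
  have nm_mem : ∀ h, h ∈ Mf R eps P' → Nm S.g (2 ^ l) h ∈ Mf R eps P' := by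
    intro h hh
    rw [hmem]
    refine M.prod_mem fun i _ => ?_
    rw [← hmem]
    exact git_mem _ _ hh
  -- τ commutes with g
  have τg : ∀ h, τ (S.g h) = S.g (τ h) := fun h => by rw [← τsq, ← τsq]
  have τgi : ∀ m h, τ (S.g^[m] h) = S.g^[m] (τ h) := by
    intro m h
    induction m with
    | zero => rfl
    | succ m ih => rw [Function.iterate_succ_apply', τg, ih, Function.iterate_succ_apply']
  have τnm : ∀ n h, τ (Nm S.g n h) = Nm S.g n (τ h) := by
    intro n h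
    simp only [Nm, map_prod, τgi]
  have gnm : ∀ n h, S.g (Nm S.g n h) = Nm S.g n (S.g h) := by
    intro n h
    simp only [Nm, map_prod, ← Function.iterate_succ_apply', ← Function.iterate_succ_apply]
  -- θ
  set θ : LaurentSeries E := eH (R.α l) with hθ
  have θv : vH θ = (0 : WithTop ℤ) := vH_eH _ (R.α_ne l)
  have θc : θ.coeff 0 = R.α l := eH_coeff_zero _
  have θne : θ ≠ 0 := by
    intro h
    rw [h] at θc
    exact R.α_ne l (by rw [← θc]; simp)
  have θmem : θ ∈ Mf R eps P' := by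
    constructor
    · ext n
      rw [hE]
      by_cases hn : n = 0
      · subst hn
        rw [θc, R.ε_α]
        simp
      · have : θ.coeff n = 0 := by
          simp [hθ, eH, HahnSeries.C_apply, HahnSeries.coeff_single_of_ne hn]
        rw [this, map_zero, mul_zero]
    · have h1 := acl_hom (eH : E →+* LaurentSeries E) _ _ (hP₀.2 l).2
      refine AF.mono _ _ _ ?_ h1
      rw [Set.image_union, Set.image_image]
      rintro h (⟨c, hc, rfl⟩ | ⟨c, hc, rfl⟩)
      · left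
        exact ⟨c, hPP' (S.sub hc), rfl⟩
      · right
        rw [Set.mem_singleton_iff] at hc
        subst hc
        simp
  -- c
  have cmem : S.c ∈ Mf R eps P' := MF.mono _ _ hPP' S.c_mem
  have cne : S.c ≠ 0 := by
    intro h
    have := S.v_c
    rw [h] at this
    simp at this
  have cv : vH S.c = ((1 : ℤ) : WithTop ℤ) := by rw [S.v_c]; rfl
  have τcv : vH (τ S.c) = ((1 : ℤ) : WithTop ℤ) := by rw [hτ.map_v, cv]
  have τcc : (τ S.c).coeff 1 = R.σ (l + 1) (R.κ l) := by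
    rw [hτ.res _ _ cv.ge, S.res_c]
  -- norms
  set Nθ := Nm S.g (2 ^ l) θ with hNθ
  have hτθv : vH (τ θ) = (0 : WithTop ℤ) := by rw [hτ.map_v, θv]
  have hτθc : (τ θ).coeff 0 = R.σ (l + 1) (R.α l) := by
    rw [hτ.res _ 0 (by rw [θv]; exact le_refl _), θc]
  obtain ⟨Nv, Nc⟩ := nm_coeff S.adm (2 ^ l) θ θv
  obtain ⟨Nv', Nc'⟩ := nm_coeff S.adm (2 ^ l) (τ θ) hτθv
  rw [θc] at Nc
  rw [hτθc] at Nc'
  have hτNθ : τ Nθ = Nm S.g (2 ^ l) (τ θ) := τnm _ _
  rw [← hτNθ] at Nv' Nc'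
  rw [← hNθ] at Nv Nc
  have Nθne : Nθ ≠ 0 := nm_ne _ _ _ θne
  have τNθne : τ Nθ ≠ 0 := (map_ne_zero_iff _ τ.injective).2 Nθne
  have τcne : τ S.c ≠ 0 := (map_ne_zero_iff _ τ.injective).2 cne
  have hNθmem : Nθ ∈ Mf R eps P' := nm_mem _ θmem
  -- β
  set β : LaurentSeries E := (τ S.c / S.c) * (τ Nθ / Nθ) with hβ
  have βmem : β ∈ Mf R eps P' := by
    rw [hmem]
    exact M.mul_mem (M.div_mem ((hmem _).1 (τ_mem _ cmem)) ((hmem _).1 cmem))
      (M.div_mem ((hmem _).1 (τ_mem _ hNθmem)) ((hmem _).1 hNθmem))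
  obtain ⟨q1, q2⟩ := div_lead (τ S.c) S.c 1 τcv cv
  obtain ⟨q3, q4⟩ := div_lead (τ Nθ) Nθ 0 Nv' Nv
  have βv : vH β = (0 : WithTop ℤ) := by
    rw [hβ, AddValuation.map_mul, q1, q3, add_zero]
  have βc : β.coeff 0 = 1 := by
    have h1 := coeff_mul_lead (τ S.c / S.c) (τ Nθ / Nθ) 0 0 q1.ge q3.ge
    rw [add_zero] at h1
    rw [hβ, h1, q2, q4, Nc, Nc', τcc, S.res_c]
    have h2 := R.κ_succ l
    have h3 := R.σ_κ (l + 1)
    have h4 : R.σ (l + 1) (R.κ (l + 1)) =
        (∏ i ∈ range (2 ^ l), (R.σ l)^[i] (R.σ (l + 1) (R.α l))) * R.σ (l + 1) (R.κ l) := by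
      rw [h2, map_mul, map_prod]
      simp only [σ_comm]
    rw [h3, h2] at h4
    have h5 : (∏ i ∈ range (2 ^ l), (R.σ l)^[i] (R.α l)) ≠ 0 := by
      rw [← Nc]
      exact vH_coeff_ne Nθ 0 Nv
    have h6 := R.κ_ne l
    field_simp
    rw [mul_comm, ← h4, mul_comm]
  have βg : S.g β = β := by
    have h1 : S.g (τ S.c) = τ S.c := by rw [← τg, S.g_c]
    have h2 : S.g Nθ = Nθ := SF.nm_g θ
    have h3 : S.g (τ Nθ) = τ Nθ := by rw [← τg, h2]
    rw [hβ, map_mul, map_div₀, map_div₀, h1, h2, h3, S.g_c]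
  have βτ : τ β = β⁻¹ := by
    have h1 : τ (τ S.c) = S.c := by rw [τsq, S.g_c]
    have h2 : τ (τ Nθ) = Nθ := by rw [τsq]; exact SF.nm_g θ
    rw [hβ, map_mul, map_div₀, map_div₀, h1, h2]
    field_simp
  have hn : (2 ^ l : ℕ) ≠ 0 := by positivity
  obtain ⟨γ, γβ, γv, γc⟩ := h_root β βv.ge βc (2 ^ l) hn
  have γne : γ ≠ 0 := by
    intro h
    rw [h] at γc
    simp at γc
  have γv0 : vH γ = (0 : WithTop ℤ) := vH_eq γ 0 γv (by rw [γc]; exact one_ne_zero)
  have γg : S.g γ = γ := by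
    apply h_root_eq _ _ _ _ γv γc (2 ^ l) hn
    · rw [← map_pow, γβ, βg]
    · rw [S.adm.map_v]; exact γv
    · rw [S.adm.res _ 0 γv, γc, map_one]
  have γeps : eps γ = γ := by
    apply h_root_eq _ _ _ _ γv γc (2 ^ l) hn
    · rw [← map_pow, γβ, βmem.1]
    · have : ((0 : ℤ) : WithTop ℤ) ≤ vH (eps γ) := by
        rw [le_vH_iff]
        intro m hm
        rw [hE, (le_vH_iff γ 0).1 γv m hm, map_zero, mul_zero]
      simpa using this
    · rw [hE, γc]; simp
  have γτ : τ γ = γ⁻¹ := by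
    have h1 : τ γ * γ = 1 := by
      apply h_root_unique _ _ _ (2 ^ l) hn
      · rw [mul_pow, ← map_pow, γβ, βτ]
        apply inv_mul_cancel₀
        intro h
        rw [h] at βc
        simp at βc
      · rw [AddValuation.map_mul, hτ.map_v, γv0, add_zero]
      · have h1 := coeff_mul_lead (τ γ) γ 0 0 (by rw [hτ.map_v]; exact γv) γv
        rw [add_zero] at h1
        rw [h1, hτ.res _ 0 γv, γc, map_one, one_mul]
    exact eq_inv_of_mul_eq_one_left h1
  have γmem : γ ∈ Mf R eps P' := by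
    refine ⟨γeps, ?_⟩
    apply acl_root AF _ _ (2 ^ l) hn
    rw [γβ]
    exact βmem.2
  -- α
  set α : LaurentSeries E := (1 + γ) * θ / 2 with hα
  have one_mem' : (1 : LaurentSeries E) ∈ Mf R eps P' := (hmem _).2 M.one_mem
  have two_mem' : (2 : LaurentSeries E) ∈ Mf R eps P' := by
    rw [hmem, ← one_add_one_eq_two]
    exact M.add_mem M.one_mem M.one_mem
  have αmem : α ∈ Mf R eps P' := by
    rw [hmem]
    exact M.div_mem (M.mul_mem (M.add_mem M.one_mem ((hmem _).1 γmem)) ((hmem _).1 θmem))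
      ((hmem _).1 two_mem')
  have h2ne : (2 : LaurentSeries E) ≠ 0 := by
    intro h
    have h1 : (2 : LaurentSeries E) = eH 2 := (map_ofNat (eH (E := E)) 2).symm
    have h3 : (eH (2 : E) : LaurentSeries E).coeff 0 = 2 := eH_coeff_zero _
    rw [← h1, h] at h3
    simp at h3
  have h2v : vH (2 : LaurentSeries E) = (0 : WithTop ℤ) ∧
      (2 : LaurentSeries E).coeff 0 = 2 := by
    have h1 : (2 : LaurentSeries E) = eH 2 := (map_ofNat (eH (E := E)) 2).symm
    rw [h1]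
    exact ⟨vH_eH _ two_ne_zero, eH_coeff_zero _⟩
  have h1γ : vH (1 + γ) = (0 : WithTop ℤ) ∧ (1 + γ).coeff 0 = 2 := by
    have hc : (1 + γ).coeff 0 = 2 := by
      rw [HahnSeries.coeff_add, γc]
      simp; norm_num
    refine ⟨vH_eq _ 0 ?_ (by rw [hc]; exact two_ne_zero), hc⟩
    refine le_trans ?_ (AddValuation.map_add _ _ _)
    rw [AddValuation.map_one, γv0]
    simp
  have h1γne : 1 + γ ≠ 0 := by
    intro h
    have := h1γ.2
    rw [h] at this
    simp at this
  obtain ⟨αv, αc⟩ : vH α = (0 : WithTop ℤ) ∧ α.coeff 0 = R.α l := by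
    have h1 := coeff_mul_lead (1 + γ) θ 0 0 h1γ.1.ge θv.ge
    rw [add_zero, h1γ.2, θc] at h1
    obtain ⟨h3, h4⟩ := div_lead ((1 + γ) * θ) 2 0 (by
      rw [AddValuation.map_mul, h1γ.1, θv, add_zero]; rfl) h2v.1
    rw [hα]
    refine ⟨h3, ?_⟩
    rw [h4, h1, h2v.2]
    field_simp
  obtain ⟨Nαv, Nαc⟩ := nm_coeff S.adm (2 ^ l) α αv
  have αne : α ≠ 0 := by
    rw [hα]
    exact div_ne_zero (mul_ne_zero h1γne θne) h2ne
  have h1γ' : 1 + γ⁻¹ ≠ 0 := by
    intro h
    apply h1γne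
    have : 1 + γ = γ * (1 + γ⁻¹) := by
      rw [mul_add, mul_inv_cancel₀ γne, mul_one]; ring
    rw [this, h, mul_zero]
  have τθne : τ θ ≠ 0 := (map_ne_zero_iff _ τ.injective).2 θne
  have key : α / τ α = γ * θ / τ θ := by
    have h1 : τ α = (1 + γ⁻¹) * τ θ / 2 := by
      rw [hα, map_div₀, map_mul, map_add, map_one, γτ, map_ofNat]
    rw [h1, hα, div_div_div_cancel_right₀ h2ne]
    rw [div_eq_div_iff (mul_ne_zero h1γ' τθne) τθne]
    have : (1 + γ⁻¹) * γ = 1 + γ := by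
      rw [add_mul, inv_mul_cancel₀ γne, one_mul]; ring
    calc (1 + γ) * θ * τ θ = ((1 + γ⁻¹) * γ) * θ * τ θ := by rw [this]
      _ = γ * θ * ((1 + γ⁻¹) * τ θ) := by ring
  have key2 : Nm S.g (2 ^ l) α / τ (Nm S.g (2 ^ l) α) = τ S.c / S.c := by
    rw [τnm, ← nm_div, key, nm_div, nm_mul, ← hNθ, ← hτNθ]
    have : Nm S.g (2 ^ l) γ = γ ^ (2 ^ l) := by
      unfold Nm
      have h1 : ∀ i, S.g^[i] γ = γ := by
        intro i
        induction i with
        | zero => rfl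
        | succ i ih => rw [Function.iterate_succ_apply', ih, γg]
      simp [h1]
    rw [this, γβ, hβ]
    field_simp
  have Nαne : Nm S.g (2 ^ l) α ≠ 0 := nm_ne _ _ _ αne
  have τNαne : τ (Nm S.g (2 ^ l) α) ≠ 0 := (map_ne_zero_iff _ τ.injective).2 Nαne
  refine ⟨α, αmem, αv, ?_, ?_, ?_⟩
  · rw [map_mul]
    rw [div_eq_div_iff τNαne cne] at key2
    rw [key2]
    ring
  · rw [AddValuation.map_mul, Nαv, S.v_c, zero_add]
  · have h1 := coeff_mul_lead (Nm S.g (2 ^ l) α) S.c 0 1 Nαv.ge cv.ge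
    rw [zero_add] at h1
    rw [h1, Nαc, αc, S.res_c, R.κ_succ]

end coc

end Pool.Agent.Run7.h590.MP57
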