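import Pool.Agent.Run7.h590.MP57.Tools

/-!
# MP_5766af_al, piece F5'' (S_St) (helper590)
-/

noncomputable section

namespace Pool.Agent.Run7.h590.MP57

open Finset Pool.Agent.Run7.h378

variable {E : Type} [Field E] [Algebra ℂ E]

theorem mem_range_of_integral (y : E) (h : IsIntegral ℂ y) :
    y ∈ Set.range (algebraMap ℂ E) := by
  have h1 := IsAlgClosed.degree_eq_one_of_irreducible ℂ (minpoly.irreducible h)
  have h2 := (minpoly.degree_eq_one_iff (A := ℂ) (B := E) (x := y)).1 h1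
  simpa using h2

theorem pow_not_mem (R : Res E) (n : ℕ) (hn : 0 < n) (C : ℂ) (hC : C ≠ 0) :
    algebraMap ℂ E C * R.x ^ n ∉ Set.range (algebraMap ℂ E) := by
  rintro ⟨d, hd⟩
  apply R.x_tr
  apply mem_range_of_integral
  have hC' : algebraMap ℂ E C ≠ 0 := by
    simpa using hC
  have h1 : R.x ^ n = algebraMap ℂ E (d / C) := by
    rw [map_div₀, hd]; field_simp
  refine ⟨Polynomial.X ^ n - Polynomial.C (d / C), Polynomial.monic_X_pow_sub_C _ hn.ne', ?_⟩
  simp [h1]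

theorem x_ne (R : Res E) : R.x ≠ 0 := by
  intro h
  apply R.x_tr
  rw [h]; exact ⟨0, map_zero _⟩

theorem ζ_pow (R : Res E) (l j : ℕ) : R.ζ (l + j) ^ (2 ^ j) = R.ζ l := by
  induction j with
  | zero => simp
  | succ j ih =>
    rw [pow_succ, mul_comm, pow_mul, ← add_assoc, R.ζ_sq, ih]

theorem ζ_half (R : Res E) (l : ℕ) : R.ζ (l + 1) ^ (2 ^ l) = -1 := by
  have := ζ_pow R 1 l
  rw [add_comm 1 l] at this
  rw [this, R.ζ_one]

theorem ζ_full (R : Res E) (l : ℕ) : R.ζ l ^ (2 ^ l) = 1 := by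
  have := ζ_pow R 0 l
  rw [zero_add] at this
  rw [this, R.ζ_zero]

theorem ζ_ne (R : Res E) (l : ℕ) : R.ζ l ≠ 0 := by
  intro h
  have := ζ_full R l
  rw [h, zero_pow (by positivity)] at this
  exact zero_ne_one this

theorem ζ_order (R : Res E) (l : ℕ) : orderOf (R.ζ l) = 2 ^ l := by
  cases l with
  | zero => simp [R.ζ_zero]
  | succ l =>
    apply orderOf_eq_prime_pow
    · rw [ζ_half]; norm_num
    · exact ζ_full R (l + 1)

theorem σ_iter_x (R : Res E) (l i : ℕ) :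
    (R.σ l)^[i] R.x = algebraMap ℂ E (R.ζ l ^ i) * R.x := by
  induction i with
  | zero => simp
  | succ i ih =>
    rw [Function.iterate_succ_apply', ih, map_mul, AlgEquiv.commutes, R.σ_x, ← mul_assoc,
      ← map_mul, pow_succ]

variable {R : Res E} {eps : LaurentSeries E ≃+* LaurentSeries E} {P₀ : Set ℂ} {l : ℕ}

theorem zj_iter (S : St R eps P₀ l) (j i : ℕ) (h : LaurentSeries E) :
    (S.g^[2 ^ j])^[i] h = S.g^[2 ^ j * i] h := by
  rw [Function.iterate_mul]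

theorem iter_x_coeff (S : St R eps P₀ l) (m : ℕ) :
    (0 : WithTop ℤ) ≤ vH (S.g^[m] (eH R.x)) ∧
      (S.g^[m] (eH R.x)).coeff 0 = algebraMap ℂ E (R.ζ l ^ m) * R.x := by
  have hx : vH (eH R.x : LaurentSeries E) = (0 : WithTop ℤ) := vH_eH _ (x_ne R)
  refine ⟨by rw [adm_iter_v S.adm, hx], ?_⟩
  have := adm_iter_res S.adm m (eH R.x) 0 (by rw [hx]; exact le_refl _)
  rw [this, eH_coeff_zero, σ_iter_x]

theorem zj_coeff (S : St R eps P₀ l) (j : ℕ) (n : ℕ) :
    vH (Nm (S.g^[2 ^ j]) n (eH R.x)) = (0 : WithTop ℤ) ∧ ∃ C : ℂ, C ≠ 0 ∧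
      (Nm (S.g^[2 ^ j]) n (eH R.x)).coeff 0 = algebraMap ℂ E C * R.x ^ n := by
  have h1 := coeff_prod_lead (range n) (fun i => (S.g^[2 ^ j])^[i] (eH R.x))
    (fun i _ => by
      simp only [zj_iter]
      exact (iter_x_coeff S _).1)
  have h2 : (Nm (S.g^[2 ^ j]) n (eH R.x)).coeff 0 =
      algebraMap ℂ E (∏ i ∈ range n, R.ζ l ^ (2 ^ j * i)) * R.x ^ n := by
    have : (Nm (S.g^[2 ^ j]) n (eH R.x)).coeff 0 = ∏ i ∈ range n,
        ((S.g^[2 ^ j])^[i] (eH R.x)).coeff 0 := h1.2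
    rw [this, map_prod, ← Finset.card_range n, ← Finset.prod_const, Finset.card_range,
      ← Finset.prod_mul_distrib]
    refine Finset.prod_congr rfl fun i _ => ?_
    rw [zj_iter, (iter_x_coeff S _).2]
  have h3 : (∏ i ∈ range n, R.ζ l ^ (2 ^ j * i)) ≠ 0 :=
    Finset.prod_ne_zero_iff.2 fun i _ => pow_ne_zero _ (ζ_ne R l)
  refine ⟨?_, _, h3, h2⟩
  refine vH_eq _ 0 h1.1 ?_
  rw [h2]
  refine mul_ne_zero ?_ (pow_ne_zero _ (x_ne R))
  exact (map_ne_zero _).2 h3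

theorem p_St : S_St := by
  intro AF E _ _ R KF eps hE MF P₀ l S
  obtain ⟨M, hM⟩ := MF.field S.P
  have hmem : ∀ h, h ∈ Mf R eps S.P ↔ h ∈ M := fun h => by
    rw [← hM]; rfl
  have g_Mf : ∀ h, h ∈ Mf R eps S.P → S.g h ∈ Mf R eps S.P := fun h hh =>
    (MF.map S.P S.P (R.σ l) S.g subset_rfl S.adm S.comm S.gx h).1 hh
  have g_it : ∀ m h, h ∈ Mf R eps S.P → S.g^[m] h ∈ Mf R eps S.P := by
    intro m h hh
    induction m with
    | zero => exact hh
    | succ m ih => rw [Function.iterate_succ_apply']; exact g_Mf _ ih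
  have nm1 : ∀ h, Nm S.g (2 ^ l) h = Nm (S.g^[2 ^ 0]) (2 ^ l) h := fun h => by simp
  have zz : zl R S.g l = Nm (S.g^[2 ^ 0]) (2 ^ (l - 0)) (eH R.x) := by
    simp [zl]
  have zj_mem : ∀ j, Nm (S.g^[2 ^ j]) (2 ^ (l - j)) (eH R.x) ∈ Mf R eps S.P := by
    intro j
    rw [hmem]
    refine M.prod_mem fun i _ => ?_
    rw [← hmem, zj_iter]
    exact g_it _ _ (MF.x_mem S.P)
  have nm_g : ∀ h, S.g (Nm S.g (2 ^ l) h) = Nm S.g (2 ^ l) h := fun h =>
    nm_fix S.g (2 ^ l) h (S.ord h)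
  obtain ⟨hv0, C0, hC0, hc0⟩ := zj_coeff S 0 (2 ^ (l - 0))
  rw [← zz] at hv0 hc0
  have z_mem : zl R S.g l ∈ Mf R eps S.P := by rw [zz]; exact zj_mem 0
  refine
    { g_Mf := g_Mf
      z_mem := z_mem
      z_g := nm_g _
      z_eps := z_mem.1
      z_v := hv0
      z_res := ?_
      z_σ := ?_
      z_Ks := ?_
      zj_mem := fun j _ => zj_mem j
      zj_g := ?_
      zj_ne := ?_
      nm_g := nm_g
      nm_mem := ?_ }
  · rw [hc0]
    exact pow_not_mem R _ (by positivity) C0 hC0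
  · rw [hc0, map_mul, AlgEquiv.commutes, map_pow, R.σ_x, mul_pow, ← map_pow, Nat.sub_zero,
      ζ_half]
    simp
  · apply KF.res _ 0 (by rw [hv0]; exact le_refl _)
    rw [hc0]
    exact pow_not_mem R _ (by positivity) C0 hC0
  · intro j hj
    apply nm_inv_aux
    rw [zj_iter, ← pow_add, Nat.add_sub_cancel' hj]
    exact S.ord _
  · intro j hj i hi hi2 heq
    obtain ⟨hv, C, hC, hc⟩ := zj_coeff S j (2 ^ (l - j))
    have h1 := adm_iter_res S.adm i (Nm (S.g^[2 ^ j]) (2 ^ (l - j)) (eH R.x)) 0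
      (by rw [hv]; exact le_refl _)
    rw [heq, hc] at h1
    have h2 : (R.σ l)^[i] (algebraMap ℂ E C * R.x ^ (2 ^ (l - j))) =
        algebraMap ℂ E C * (algebraMap ℂ E (R.ζ l ^ i) * R.x) ^ (2 ^ (l - j)) := by
      rw [← σ_iter_x]
      clear h1 hc hC heq hi hi2
      induction i with
      | zero => rfl
      | succ i ih =>
        rw [Function.iterate_succ_apply', ih, map_mul, AlgEquiv.commutes, map_pow,
          Function.iterate_succ_apply']
    rw [h2, mul_pow] at h1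
    have hC' : algebraMap ℂ E C ≠ 0 := by simpa using hC
    have hx : R.x ^ (2 ^ (l - j)) ≠ 0 := pow_ne_zero _ (x_ne R)
    have h3 := mul_left_cancel₀ hC' h1
    have h4 : algebraMap ℂ E ((R.ζ l ^ i) ^ (2 ^ (l - j))) = 1 := by
      rw [map_pow]
      have : (1 : E) * R.x ^ (2 ^ (l - j)) =
        (algebraMap ℂ E (R.ζ l ^ i)) ^ (2 ^ (l - j)) * R.x ^ (2 ^ (l - j)) := by
        rw [one_mul]; exact h3
      exact (mul_right_cancel₀ hx this).symm
    have h5 : (R.ζ l ^ i) ^ (2 ^ (l - j)) = 1 := by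
      apply (algebraMap ℂ E).injective
      rw [h4, map_one]
    have h6 : R.ζ l ^ (2 ^ (l - j)) = R.ζ j := by
      have := ζ_pow R j (l - j)
      rwa [Nat.add_sub_cancel' hj] at this
    rw [← pow_mul, mul_comm, pow_mul, h6] at h5
    have h7 := orderOf_dvd_of_pow_eq_one h5
    rw [ζ_order] at h7
    exact absurd (Nat.le_of_dvd hi h7) (by omega)
  · intro h hh
    rw [hmem]
    refine M.prod_mem fun i _ => ?_
    rw [← hmem]
    exact g_it _ _ hh

end Pool.Agent.Run7.h590.MP57
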