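import Pool.Agent.Run7.h378.IfaceF

/-!
# MP_5766af_al: tools for the pieces F5'', F12 (helper590)
-/

noncomputable section

namespace Pool.Agent.Run7.h590.MP57

open Finset Pool.Agent.Run7.h378

section iter

variable {H : Type} [Field H]

theorem iter_prod (g : H ≃+* H) (m : ℕ) {ι : Type} (s : Finset ι) (f : ι → H) :
    g^[m] (∏ i ∈ s, f i) = ∏ i ∈ s, g^[m] (f i) := by
  induction m with
  | zero => rfl
  | succ m ih =>
    rw [Function.iterate_succ_apply', ih, map_prod]
    refine Finset.prod_congr rfl fun i _ => ?_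
    rw [Function.iterate_succ_apply']

theorem iter_mul (g : H ≃+* H) (m : ℕ) (a b : H) : g^[m] (a * b) = g^[m] a * g^[m] b := by
  induction m with
  | zero => rfl
  | succ m ih => simp only [Function.iterate_succ_apply', ih, map_mul]

theorem iter_inv (g : H ≃+* H) (m : ℕ) (a : H) : g^[m] (a⁻¹) = (g^[m] a)⁻¹ := by
  induction m with
  | zero => rfl
  | succ m ih => simp only [Function.iterate_succ_apply', ih, map_inv₀]

theorem iter_one (g : H ≃+* H) (m : ℕ) : g^[m] (1 : H) = 1 := by
  induction m with
  | zero => rfl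
  | succ m ih => simp only [Function.iterate_succ_apply', ih, map_one]

theorem nm_mul (g : H ≃+* H) (n : ℕ) (a b : H) : Nm g n (a * b) = Nm g n a * Nm g n b := by
  simp only [Nm, iter_mul, Finset.prod_mul_distrib]

theorem nm_inv (g : H ≃+* H) (n : ℕ) (a : H) : Nm g n a⁻¹ = (Nm g n a)⁻¹ := by
  simp only [Nm, iter_inv, Finset.prod_inv_distrib]

theorem nm_div (g : H ≃+* H) (n : ℕ) (a b : H) : Nm g n (a / b) = Nm g n a / Nm g n b := by
  rw [div_eq_mul_inv, nm_mul, nm_inv, div_eq_mul_inv]

theorem nm_ne (g : H ≃+* H) (n : ℕ) (a : H) (ha : a ≠ 0) : Nm g n a ≠ 0 := by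
  refine Finset.prod_ne_zero_iff.2 fun i _ => ?_
  have : ∀ m : ℕ, g^[m] a ≠ 0 := by
    intro m
    induction m with
    | zero => exact ha
    | succ m ih =>
      rw [Function.iterate_succ_apply']
      exact (map_ne_zero_iff _ g.injective).2 ih
  exact this i

/-- invariance of a norm-like product, in terms of a function `f` which is an iterate -/
theorem nm_inv_aux (g : H ≃+* H) (m n : ℕ) (h : H) (hn : (g^[m])^[n] h = h) :
    g^[m] (Nm (g^[m]) n h) = Nm (g^[m]) n h := by
  unfold Nm
  rw [iter_prod]
  have h1 : ∀ i, g^[m] ((g^[m])^[i] h) = (g^[m])^[i + 1] h := fun i => by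
    rw [Function.iterate_succ_apply']
  simp only [h1]
  have h2 := Finset.prod_range_succ (fun i => (g^[m])^[i] h) n
  have h3 := Finset.prod_range_succ' (fun i => (g^[m])^[i] h) n
  rw [h2] at h3
  rw [hn] at h3
  simp only [Function.iterate_zero, id_eq] at h3
  by_cases hh : h = 0
  · rcases Nat.eq_zero_or_pos n with hn0 | hn0
    · subst hn0; simp
    · have key : ∀ k : ℕ, (g^[m])^[k] (0 : H) = 0 := by
        intro k
        induction k with
        | zero => rfl
        | succ k ih =>
          rw [Function.iterate_succ_apply', ih]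
          clear ih h1 h2 h3 hn
          induction m with
          | zero => rfl
          | succ m ih => rw [Function.iterate_succ_apply', ih, map_zero]
      subst hh
      rw [Finset.prod_eq_zero (i := 0) (Finset.mem_range.2 hn0) (key _),
        Finset.prod_eq_zero (i := 0) (Finset.mem_range.2 hn0) (key _)]
  · exact (mul_right_cancel₀ hh h3).symm

theorem nm_fix (g : H ≃+* H) (n : ℕ) (h : H) (hn : g^[n] h = h) :
    g (Nm g n h) = Nm g n h := by
  have := nm_inv_aux g 1 n h (by simpa using hn)
  simpa using this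

end iter

section val

variable {E : Type} [Field E]

theorem vH_apply (h : LaurentSeries E) : vH h = h.orderTop := rfl

theorem le_vH_iff (h : LaurentSeries E) (n : ℤ) :
    (n : WithTop ℤ) ≤ vH h ↔ ∀ m : ℤ, m < n → h.coeff m = 0 := by
  rw [vH_apply]
  constructor
  · intro hn m hm
    apply HahnSeries.coeff_eq_zero_of_lt_orderTop
    exact lt_of_lt_of_le (WithTop.coe_lt_coe.2 hm) hn
  · intro hn
    by_contra hc
    push Not at hc
    by_cases h0 : h = 0
    · subst h0; simp at hc
    · have h1 := HahnSeries.coeff_orderTop_ne (x := h) (g := h.order)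
        (by rw [HahnSeries.order_eq_orderTop_of_ne_zero h0])
      apply h1
      apply hn
      rw [← HahnSeries.order_eq_orderTop_of_ne_zero h0] at hc
      exact WithTop.coe_lt_coe.1 hc

theorem vH_eq (h : LaurentSeries E) (n : ℤ) (h0 : (n : WithTop ℤ) ≤ vH h)
    (h1 : h.coeff n ≠ 0) : vH h = n := by
  refine le_antisymm ?_ h0
  rw [vH_apply]
  exact HahnSeries.orderTop_le_of_coeff_ne_zero h1

theorem vH_coeff_ne (h : LaurentSeries E) (n : ℤ) (h0 : vH h = n) : h.coeff n ≠ 0 := by
  rw [vH_apply] at h0
  exact HahnSeries.coeff_orderTop_ne h0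

theorem vH_eH (e : E) (he : e ≠ 0) : vH (eH e) = (0 : WithTop ℤ) := by
  have h0 : (eH e : LaurentSeries E).coeff 0 = e := by
    simp [eH, HahnSeries.C_apply]
  refine vH_eq _ 0 ?_ (by rw [h0]; exact he)
  rw [le_vH_iff]
  intro m hm
  have : m ≠ 0 := by omega
  simp [eH, HahnSeries.C_apply, HahnSeries.coeff_single_of_ne this]

theorem eH_coeff_zero (e : E) : (eH e : LaurentSeries E).coeff 0 = e := by
  simp [eH, HahnSeries.C_apply]

/-- leading coefficients multiply -/
theorem coeff_mul_lead (a b : LaurentSeries E) (m n : ℤ) (ha : (m : WithTop ℤ) ≤ vH a)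
    (hb : (n : WithTop ℤ) ≤ vH b) : (a * b).coeff (m + n) = a.coeff m * b.coeff n := by
  classical
  rw [HahnSeries.coeff_mul]
  rw [le_vH_iff] at ha hb
  by_cases hab : a.coeff m = 0 ∨ b.coeff n = 0
  · have : a.coeff m * b.coeff n = 0 := by
      rcases hab with h | h <;> simp [h]
    rw [this]
    apply Finset.sum_eq_zero
    rintro ⟨i, j⟩ hij
    rw [Finset.mem_addAntidiagonal] at hij
    obtain ⟨hi, hj, hs⟩ := hij
    simp only at hi hj hs
    by_cases h1 : i < m
    · rw [ha i h1, zero_mul]
    by_cases h2 : j < n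
    · rw [hb j h2, mul_zero]
    have : i = m ∧ j = n := by omega
    obtain ⟨rfl, rfl⟩ := this
    exact this
  · push Not at hab
    rw [Finset.sum_eq_single (m, n)]
    · rintro ⟨i, j⟩ hij hne
      rw [Finset.mem_addAntidiagonal] at hij
      obtain ⟨hi, hj, hs⟩ := hij
      simp only at hi hj hs
      by_cases h1 : i < m
      · rw [ha i h1, zero_mul]
      by_cases h2 : j < n
      · rw [hb j h2, mul_zero]
      exfalso
      apply hne
      have : i = m ∧ j = n := by omega
      rw [this.1, this.2]
    · intro hn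
      exfalso
      apply hn
      rw [Finset.mem_addAntidiagonal]
      exact ⟨hab.1, hab.2, rfl⟩

theorem coeff_prod_lead {ι : Type} (s : Finset ι) (f : ι → LaurentSeries E)
    (hf : ∀ i ∈ s, (0 : WithTop ℤ) ≤ vH (f i)) :
    (0 : WithTop ℤ) ≤ vH (∏ i ∈ s, f i) ∧
      (∏ i ∈ s, f i).coeff 0 = ∏ i ∈ s, (f i).coeff 0 := by
  classical
  induction s using Finset.induction_on with
  | empty =>
    simp only [Finset.prod_empty]
    refine ⟨by simp, by simp⟩
  | insert a s ha ih =>
    have ih' := ih fun i hi => hf i (Finset.mem_insert_of_mem hi)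
    rw [Finset.prod_insert ha, Finset.prod_insert ha]
    have h1 := hf a (Finset.mem_insert_self _ _)
    refine ⟨?_, ?_⟩
    · rw [AddValuation.map_mul]
      exact add_nonneg h1 ih'.1
    · have := coeff_mul_lead (f a) (∏ i ∈ s, f i) 0 0 (by simpa using h1) (by simpa using ih'.1)
      rw [add_zero] at this
      rw [this, ih'.2]

end val

section adm

variable {E : Type} [Field E] [Algebra ℂ E]

theorem adm_iter_v {ρ : E ≃ₐ[ℂ] E} {τ : LaurentSeries E ≃+* LaurentSeries E} (h : Adm ρ τ)
    (i : ℕ) (a : LaurentSeries E) : vH (τ^[i] a) = vH a := by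
  induction i with
  | zero => rfl
  | succ i ih => rw [Function.iterate_succ_apply', h.map_v, ih]

theorem adm_iter_res {ρ : E ≃ₐ[ℂ] E} {τ : LaurentSeries E ≃+* LaurentSeries E} (h : Adm ρ τ)
    (i : ℕ) (a : LaurentSeries E) (n : ℤ) (ha : (n : WithTop ℤ) ≤ vH a) :
    (τ^[i] a).coeff n = ρ^[i] (a.coeff n) := by
  induction i with
  | zero => rfl
  | succ i ih =>
    rw [Function.iterate_succ_apply', h.res _ _ (by rw [adm_iter_v h]; exact ha), ih,
      Function.iterate_succ_apply']

end adm

end Pool.Agent.Run7.h590.MP57
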